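import Mathlib
import Pool.Agent.H417R3.HB.ArtQ

/-!
# Artin's holomorphy conjecture at zeros of small order: linear groups in characteristic two

`Pool.Agent.H541R3.ART.Irr G` is the set of irreducible complex characters of the finite group `G`.

`Pool.Agent.H541R3.ART.ArtinData G s₀` is a family of functions with the formal properties of the
Artin L-functions of a Galois extension `E/K` with group `G` near a point `s₀ ≠ 1`: functions
`L χ` for the irreducible characters `χ` of `G` and `Lin H ψ` for the linear characters `ψ` of the
subgroups `H`, such that `L χ` is meromorphic and not identically zero near `s₀` (Brauer), `Lin H ψ`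
has no pole at `s₀` (Artin reciprocity and Hecke), and `Lin H ψ` is the product of the
`L χ ^ ⟨χ|_H, ψ⟩` (induction). In particular `Lin ⊥ 1` stands for the Dedekind zeta function of `E`.
-/

set_option autoImplicit false

open Pool.Agent.H541R3.ART Pool.Agent.H417R3.HB Matrix

/-- Let `G` be a quotient of `GL_n(F_q)`, `q` a power of two, `n = a + b` with `a, b ≥ 1` coprime.
If the zeta function has order `r < (q ^ a - 1) (q ^ b - 1) / (q - 1)` at `s₀`, then all L-functions
of irreducible characters of `G` are holomorphic at `s₀`, and those of the characters which are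
nontrivial on the image of `SL_n(F_q)` do not vanish at `s₀`. -/
theorem Pool.Agent.Results.MP_d2121a_nt.CharTwoLinear.result (k : Type) [Field k] [Finite k]
    [CharP k 2] (a b : ℕ) (ha : 0 < a) (hb : 0 < b) (hab : Nat.Coprime a b)
    (G : Type) [Group G] [Finite G] (f : GL (Fin (a + b)) k →* G) (hf : Function.Surjective f)
    (s₀ : ℂ) (A : ArtinData G s₀) (r : ℕ)
    (hr : meromorphicOrderAt (A.Lin ⊥ 1) s₀ = (r : WithTop ℤ))
    (hlt : r * (Nat.card k - 1) < (Nat.card k ^ a - 1) * (Nat.card k ^ b - 1))
    (χ : G → ℂ) (hχ : χ ∈ Irr G) :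
    0 ≤ meromorphicOrderAt (A.L χ) s₀ ∧
      ((∃ g : GL (Fin (a + b)) k, g.det = 1 ∧ χ (f g) ≠ χ 1) →
        meromorphicOrderAt (A.L χ) s₀ = 0) :=
  artin_gl ha hb hab f hf A hr hlt χ hχ
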