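import Pool.Agent.H480R3.Seg.Artin

/-!
# Artin L-functions: one-sided bounds for the Euler product at the centre

Let `K` be a Galois extension of `ℚ` and `ρ` a complex representation of its Galois group with real
character (no irreducibility is needed, so that by induction every base field is covered, and
`χ + χ̄` for an arbitrary character `χ`). Let `L` be its Artin L-function (without the finitely many
Euler factors at the primes dividing the discriminant), which is meromorphic on `ℂ` by Brauer's
theorem, let `m` be its order at `s = 1/2`, and let `EP(x)` be the product of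
`|det(1 - p^(-1/2) ρ(Frob_p))|` over the good primes `p ≤ x`: the inverse of the truncated Euler
product at the central point. Then:

1. If `L` has no pole at a real point `σ > 1/2`, then `EP(x) / (log x)^κ` is unbounded for every
`κ < m`; and if `L` has any pole or zero with `Re s > 1/2`, it is unbounded for every real `κ`.
The same holds for the logarithmic averages of `log EP(n) - κ log log n`.

2. If `L` has no zero at a real point `σ > 1/2`, then `EP(x) / (log x)^κ` has lower limit `0` for
every `κ > m`; and if `L` has any pole or zero with `Re s > 1/2`, then for every real `κ`. Again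
this holds for the logarithmic averages too.

So an upper bound `EP(x) ≤ C (log x)^κ` for all large `x` (a bound from one side only, with any
exponent) implies Artin's conjecture for `ρ` in `Re s > 1/2`, hence by the functional equation off
the line `Re s = 1/2`, if `L` has no real pole greater than `1/2`; and a lower bound
`EP(x) ≥ c (log x)^κ` implies the same if `L` has no real zero greater than `1/2`.
-/

set_option autoImplicit false

open Filter

namespace Pool.Agent.Results.MP_d2121a_nt.OneSidedProducts

open Pool.Agent.H480R3.Seg.Artin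

/-- See the introduction. -/
theorem result {K : Type} [Field K] [NumberField K] [IsGalois ℚ K] {n : ℕ}
    (ρ : (K ≃ₐ[ℚ] K) →* Matrix.GeneralLinearGroup (Fin n) ℂ)
    (hρ : ∀ g, (ρ g : Matrix (Fin n) (Fin n) ℂ).trace.im = 0)
    (frob : ℕ → (K ≃ₐ[ℚ] K)) (_hfrob : ∀ p, Good K p → IsFrob K p (frob p))
    (L : ℂ → ℂ) (hL : IsL ρ frob L) (hmero : ∀ σ : ℝ, 1 / 2 ≤ σ → MeromorphicAt L σ) :
    ∃ m : ℤ, meromorphicOrderAt L (1 / 2) = m ∧
    ((∀ σ : ℝ, 1 / 2 < σ → AnalyticAt ℂ L σ) → ∀ κ : ℝ, (κ < m ∨ ¬ Ext L) → ∀ C : ℝ,
      (∃ᶠ x : ℕ in atTop, C < LA ρ frob κ x) ∧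
      ∃ᶠ x : ℕ in atTop, C * Real.log x ^ κ < EP ρ frob x) ∧
    ((∀ σ : ℝ, 1 / 2 < σ → AnalyticAt ℂ (fun s => (L s)⁻¹) σ) →
      ∀ κ : ℝ, ((m : ℝ) < κ ∨ ¬ Ext L) → ∀ C : ℝ, 0 < C →
      (∃ᶠ x : ℕ in atTop, LA ρ frob κ x < -C) ∧
      ∃ᶠ x : ℕ in atTop, EP ρ frob x < C * Real.log x ^ κ) :=
  main hρ hL hmero

end Pool.Agent.Results.MP_d2121a_nt.OneSidedProducts
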