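import Mathlib
import Pool.Agent.H541R3.ART.Two

/-!
# Artin's holomorphy conjecture at zeros of order at most two, arbitrary Galois groups

`Pool.Agent.H541R3.ART.Irr G` is the set of irreducible complex characters of the finite group `G`,
and `Pool.Agent.H541R3.ART.ArtinData G s₀` is a family of functions with the formal properties of
the Artin L-functions of a Galois extension `E/K` with group `G` near a point `s₀ ≠ 1`; `Lin ⊥ 1`
stands for the Dedekind zeta function of `E` and `Lin ⊤ ρ` for the L-function of the linear
character `ρ` of `G`.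
-/

set_option autoImplicit false

open Pool.Agent.H541R3.ART

open Classical in
/-- Let `G` be any finite group, let `ζ_E` have order `r ≤ 2` at `s₀`, and let the L-function of some
linear character `ρ` of `G` vanish at `s₀`. Then there are `r` linear characters `ψ` of `G`, `ρ`
among them, such that the order of `L χ` at `s₀` is the number of those `ψ` which are equal to `χ`,
for every irreducible character `χ`. -/
theorem Pool.Agent.Results.MP_d2121a_nt.OrderTwo.result (G : Type) [Group G] [Finite G] (s₀ : ℂ)
    (A : ArtinData G s₀) (r : ℕ) (hr : meromorphicOrderAt (A.Lin ⊥ 1) s₀ = (r : WithTop ℤ))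
    (h2 : r ≤ 2) (ρ : G →* ℂˣ)
    (hρ : 0 < meromorphicOrderAt (A.Lin ⊤ (ρ.comp (⊤ : Subgroup G).subtype)) s₀) :
    ∃ s : Multiset (G →* ℂˣ), Multiset.card s = r ∧ ρ ∈ s ∧ ∀ χ ∈ Irr G,
      meromorphicOrderAt (A.L χ) s₀
        = ((Multiset.card (s.filter (fun ψ => (fun g => ((ψ g : ℂˣ) : ℂ)) = χ)) : ℤ) :
            WithTop ℤ) :=
  artin_two A hr h2 ρ hρ
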