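import Mathlib
import Pool.Agent.H541R3.ART.Core
import Pool.Agent.H541R3.ART.Sym

/-!
# Artin's holomorphy conjecture at zeros of small order

`Pool.Agent.H541R3.ART.Irr G` is the set of irreducible complex characters of the finite group `G`.

`Pool.Agent.H541R3.ART.ArtinData G s₀` is a family of functions with the formal properties of the
Artin L-functions of a Galois extension `E/K` with group `G` near a point `s₀ ≠ 1`: functions
`L χ` for the irreducible characters `χ` of `G` and `Lin H ψ` for the linear characters `ψ` of the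
subgroups `H`, such that `L χ` is meromorphic and not identically zero near `s₀` (Brauer), `Lin H ψ`
has no pole at `s₀` (Artin reciprocity and Hecke), and `Lin H ψ` is the product of the
`L χ ^ ⟨χ|_H, ψ⟩` (induction). In particular `Lin ⊥ 1` stands for the Dedekind zeta function of `E`.
-/

set_option autoImplicit false

open Pool.Agent.H541R3.ART Pool.Agent.H302R10 Equiv

/-- (1) Let `G` have normal subgroups `1 = N 0, N 1, …, N l` such that every `N (j+1) / N j` is a
product of simple groups allowed for `R ≥ 3`, and let `ζ_E` have a zero of order `r ≤ R` at `s₀`.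
Then `L χ` is holomorphic and nonzero at `s₀` for every irreducible `χ` which is nontrivial on
`N l`; and if the irreducible characters trivial on `N l` are monomial, then every `L χ` is
holomorphic at `s₀`.
(2) Let `A_n ≤ G ≤ S_n`, `n ≥ 5`, and let the order `r` of `ζ_E` at `s₀` be less than
`(2 ^ k - 1) ⌊n / 2 ^ k⌋` for some `k ≥ 2`. Then every `L χ` is holomorphic at `s₀`, and nonzero
unless `χ` is trivial on `A_n`. -/
theorem Pool.Agent.Results.MP_d2121a_nt.SmallOrderZeros.result :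
    (∀ (G : Type) [Group G] [Finite G] (s₀ : ℂ) (A : ArtinData G s₀) (r R : ℕ),
      meromorphicOrderAt (A.Lin ⊥ 1) s₀ = (r : WithTop ℤ) → r ≤ R → 3 ≤ R →
      ∀ (l : ℕ) (N : ℕ → Subgroup G), N 0 = ⊥ → (∀ j ≤ l, (N j).Normal) →
      (∀ j < l, ∃ (m : ℕ) (T : Fin m → Type) (_ : ∀ i, Group (T i))
          (f : N (j + 1) →* (∀ i : Fin m, T i)),
          (∀ i, Allowed R (T i)) ∧ Function.Surjective f ∧
          f.ker = (N j).subgroupOf (N (j + 1))) →
      (∀ χ ∈ Irr G, (∃ x ∈ N l, χ x ≠ χ 1) → meromorphicOrderAt (A.L χ) s₀ = 0) ∧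
      ((∀ χ ∈ Irr G, (∀ x ∈ N l, χ x = χ 1) → IsMonomialChar χ) →
        ∀ χ ∈ Irr G, 0 ≤ meromorphicOrderAt (A.L χ) s₀)) ∧
    (∀ n k : ℕ, 5 ≤ n → 2 ≤ k → ∀ G : Subgroup (Perm (Fin n)), alternatingGroup (Fin n) ≤ G →
      ∀ (s₀ : ℂ) (A : ArtinData G s₀) (r : ℕ),
      meromorphicOrderAt (A.Lin ⊥ 1) s₀ = (r : WithTop ℤ) → r < (2 ^ k - 1) * (n / 2 ^ k) →
      ∀ χ ∈ Irr G, 0 ≤ meromorphicOrderAt (A.L χ) s₀ ∧
        ((∃ g : G, (g : Perm (Fin n)) ∈ alternatingGroup (Fin n) ∧ χ g ≠ χ 1) →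
          meromorphicOrderAt (A.L χ) s₀ = 0)) := by
  refine ⟨?_, fun n k hn hk G hG s₀ A r hr hlt χ hχ => artin_sym hn hk G hG A hr hlt χ hχ⟩
  intro G _ _ s₀ A r R hr hrR hR l N h0 hnorm hlayer
  obtain ⟨h1, h2⟩ := artin_layers A hr hrR hR l N h0 hnorm hlayer
  refine ⟨h1, fun hmon χ hχ => ?_⟩
  by_cases h : ∃ x ∈ N l, χ x ≠ χ 1
  · exact (h1 χ hχ h).ge
  · push Not at h
    exact h2 χ hχ (hmon χ hχ h)
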